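import Pool.Agent.Lib.MP_75051e_gt.PMain

set_option autoImplicit false

open Pool.Agent.Lib.MP_75051e_gt Pool.Agent.Lib.MP_75051e_gt.Gluing

/-- Every veering triangulation shares its taut polynomial with infinitely many veering
triangulations. -/
theorem Pool.Agent.Results.MP_75051e_gt.InfinitelyMany.result (V : Gluing) (hV : V.IsVeering) :
    ∃ (b : ℕ) (φ : V.T × Bool → (Fin b → ℤ)) (Θ : GR b), IsFreeAb φ ∧ IsTautPoly φ Θ ∧
      ∃ W : ℕ → Gluing, (∀ k, (W k).IsVeering) ∧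
        (Function.Injective fun k => Fintype.card (W k).T) ∧
        ∀ k, ∃ φ' : (W k).T × Bool → (Fin b → ℤ), IsFreeAb φ' ∧
          fitting (GR b) (TautModule φ') = fitting (GR b) (TautModule φ) ∧ IsTautPoly φ' Θ := by
  obtain ⟨b, φ, hφ⟩ := exists_freeAb V
  obtain ⟨Θ, hΘ⟩ := exists_tautPoly φ
  obtain ⟨W, h1, h2, h3⟩ := family Tb.gad hV hφ
  refine ⟨b, φ, Θ, hφ, hΘ, W, h1, h2, fun k => ?_⟩
  obtain ⟨φ', h4, h5⟩ := h3 k
  exact ⟨φ', h4, h5, by rwa [IsTautPoly, h5]⟩
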